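import Mathlib
import Pool.Agent.Lib.P0be93d.Final

set_option autoImplicit false

namespace Pool.Agent.Results.MP_0be93d_co.SphereO3

open Cardinal Pool.Agent.Lib.P0be93d

/-- Question 1 (the group `O(3)`). For every `W` in the sphere with trivial pointwise stabilizer
the precolouring extension property holds exactly when `2 ^ |W|` exceeds the continuum; hence an
uncountable `W` for which it fails exists if and only if `2 ^ ℵ₁ = 2 ^ ℵ₀`. -/
theorem result :
    (∀ W : Set S2, TrivialStabilizer O3 W → (ExtensionProperty O3 W ↔ (2 : Cardinal.{0}) ^ ℵ₀ < 2 ^ #W)) ∧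
    ((∃ W : Set S2, ¬ W.Countable ∧ TrivialStabilizer O3 W ∧ ¬ ExtensionProperty O3 W) ↔
      (2 : Cardinal.{0}) ^ ℵ₁ = 2 ^ ℵ₀) :=
  ⟨fun W hW => by rw [two_power_aleph0]; exact linearAction_O3.characterisation W hW,
    linearAction_O3.question⟩

end Pool.Agent.Results.MP_0be93d_co.SphereO3
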